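import Pool.Agent.H84.S2.Tg

/-!
# MP_70ba79_ag, row SNZ: the form `J S` vanishes at the nodes
-/

set_option autoImplicit false

namespace Pool.Agent.H11.S2

open MvPolynomial SC
open Pool.Agent.H27.LV (ge deg poleOrder canDeg)
open Pool.Agent.H84.SM (cr dt dp)
open Pool.Agent.H3.SF (Itg Bb BB Hm eu grd hes Sfc Crd Cnn Crf Prm nv)
open Pool.Agent.H84.SF Pool.Agent.H3.S2 Pool.Agent.H84.S2

theorem chain_rule {k F σ : Type} [Field k] [Field F] [Algebra k F] [Fintype σ] (X : σ → F)
    (D : Derivation k F F) (p : MvPolynomial σ k) :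
    D (aeval X p) = ∑ j, aeval X (pderiv j p) * D (X j) := by
  classical
  induction p using MvPolynomial.induction_on with
  | C c =>
    rw [aeval_C, Derivation.map_algebraMap]
    symm
    refine Finset.sum_eq_zero (fun j _ => ?_)
    rw [pderiv_C, map_zero, zero_mul]
  | add p q hp hq =>
    rw [map_add, map_add, hp, hq, ← Finset.sum_add_distrib]
    refine Finset.sum_congr rfl (fun j _ => ?_)
    rw [map_add, map_add, add_mul]
  | mul_X p i hp =>
    rw [map_mul, Derivation.leibniz, hp, aeval_X, smul_eq_mul, smul_eq_mul]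
    have h1 : ∀ j, aeval X (pderiv j (p * MvPolynomial.X i)) * D (X j) =
        X i * (aeval X (pderiv j p) * D (X j)) +
          (if j = i then aeval X p * D (X j) else 0) := by
      intro j
      rw [pderiv_mul, map_add, map_mul, map_mul, aeval_X, pderiv_X]
      by_cases h : j = i
      · rw [if_pos h, h, Pi.single_eq_same, map_one]
        ring
      · rw [if_neg h, Pi.single_eq_of_ne (fun h' => h h'.symm), map_zero]
        ring
    simp only [h1]
    rw [Finset.sum_add_distrib, Finset.sum_ite_eq' Finset.univ i, if_pos (Finset.mem_univ i),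
      Finset.mul_sum, add_comm]

theorem aeval_itg {k F σ : Type} [Field k] [Field F] [Algebra k F] (X : σ → F) (u : Fin 3 → F)
    (hX : ∀ i, Itg k u (X i)) (p : MvPolynomial σ k) : aeval X p ∈ Bb k u := by
  induction p using MvPolynomial.induction_on with
  | C c =>
    rw [aeval_C]
    exact (Bb k u).algebraMap_mem c
  | add p q hp hq =>
    rw [map_add]
    exact (Bb k u).add_mem hp hq
  | mul_X p i hp =>
    rw [map_mul, aeval_X]
    exact (Bb k u).mul_mem hp (hX i)

theorem pf_SNZ (hUNZ : T_UNZ) (hEVS : T_EVS) : T_SNZ := by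
  intro k F σ _ _ _ _ _ _ X u dd J j0 m GP sg S hS hC s hs hcone hnod U hU
  obtain ⟨ev, hev⟩ := hEVS k F σ X u dd J j0 hS s hcone
  obtain ⟨f, hf0, hgr, -⟩ := hnod.ex
  obtain ⟨l, Ul, hUlh, hUl, hUl0⟩ := hUNZ k F σ X u dd J j0 hS s hs hcone
  obtain ⟨c, hc⟩ := hC.cert
  obtain ⟨e, he, hcert⟩ := hc l
  -- the values of the derivatives
  have hval : ∀ (l' : Fin 3) (p : MvPolynomial σ k) (b : Bb k u),
      (b : F) = aeval u J * dd l' (aeval X p) →
      ev b = ∑ j, eval s (pderiv j p) * ev ⟨aeval u J * dd l' (X j), hS.Jd _ l' (hS.Xint j)⟩ := by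
    intro l' p b hb
    have h1 : b = ∑ j, (⟨aeval X (pderiv j p), aeval_itg X u hS.Xint _⟩ : Bb k u) *
        ⟨aeval u J * dd l' (X j), hS.Jd _ l' (hS.Xint j)⟩ := by
      apply Subtype.ext
      rw [hb, chain_rule, AddSubmonoidClass.coe_finsetSum, Finset.mul_sum]
      refine Finset.sum_congr rfl (fun j _ => ?_)
      change _ = aeval X (pderiv j p) * (aeval u J * dd l' (X j))
      ring
    rw [h1, map_sum]
    refine Finset.sum_congr rfl (fun j _ => ?_)
    rw [map_mul, hev (pderiv j p) _ rfl]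
  have hgr' : ∀ j, eval s (pderiv j GP) = eval s (pderiv j f) := by
    intro j
    have h1 := hgr j
    rw [map_sub, map_sub, sub_eq_zero] at h1
    exact h1
  have hG0 : ∀ (l' : Fin 3) (b : Bb k u), (b : F) = aeval u J * dd l' (aeval X GP) →
      ev b = 0 := by
    intro l' b hb
    rw [hval l' GP b hb]
    simp only [hgr']
    rw [← hval l' f 0 (by rw [hf0, map_zero, mul_zero]; rfl), map_zero]
  -- the value of `J S u_l ^ c`
  have hJS : ∀ b : Bb k u, (b : F) = aeval u J * (aeval u S * u l ^ c) → ev b = 0 := by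
    intro b hb
    have h1 : b = ∑ l', (⟨e l', (he l').1⟩ : Bb k u) *
        ⟨aeval u J * dd l' (aeval X GP), hS.Jd _ l' hC.itg⟩ := by
      apply Subtype.ext
      rw [hb, hcert, AddSubmonoidClass.coe_finsetSum, Finset.mul_sum]
      refine Finset.sum_congr rfl (fun j _ => ?_)
      change _ = e j * (aeval u J * dd j (aeval X GP))
      ring
    rw [h1, map_sum]
    refine Finset.sum_eq_zero (fun l' _ => ?_)
    have h2 := hG0 l' (⟨aeval u J * dd l' (aeval X GP), hS.Jd _ l' hC.itg⟩ : Bb k u) rfl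
    rw [map_mul, h2, mul_zero]
  have hbind : ∀ p : MvPolynomial (Fin 3) k, aeval X (bind₁ U p) = aeval u p := by
    intro p
    rw [aeval_bind₁]
    simp only [hU]
  have h1 : aeval X (bind₁ U J * (bind₁ U S * U l ^ c)) = aeval u J * (aeval u S * u l ^ c) := by
    rw [map_mul, map_mul, map_pow, hbind, hbind, hU]
  have h2 := hev (bind₁ U J * (bind₁ U S * U l ^ c)) ⟨_, aeval_itg X u hS.Xint _⟩ rfl
  rw [hJS _ h1] at h2
  have hbe : ∀ p : MvPolynomial (Fin 3) k, eval s (bind₁ U p) = eval (fun l => eval s (U l)) p := by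
    intro p
    have h3 := eval₂Hom_bind₁ (RingHom.id k) s U p
    exact h3
  rw [map_mul, map_mul, map_pow, hbe, hbe] at h2
  have h4 : eval s (U l) ≠ 0 := by
    have h5 : eval s (U l - Ul) = 0 := hcone.pt _ (by rw [map_sub, hU, hUl, sub_self])
    rw [map_sub, sub_eq_zero] at h5
    rw [h5]
    exact hUl0
  rw [map_mul]
  have h6 : eval (fun l => eval s (U l)) J * eval (fun l => eval s (U l)) S *
      eval s (U l) ^ c = 0 := by
    rw [mul_assoc]
    exact h2.symm
  exact (mul_eq_zero.1 h6).resolve_right (pow_ne_zero c h4)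

end Pool.Agent.H11.S2
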