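import Pool.Agent.H84.S2.Tg
import Pool.Agent.H68.SF.HMK
import Pool.Agent.H70.SF.DSO
import Pool.Agent.H11.S2.SNZ

/-!
# MP_70ba79_ag, row LSN: contact at a node of the curve
-/

set_option autoImplicit false

namespace Pool.Agent.H11.S2

open MvPolynomial SC
open Pool.Agent.H27.LV (ge deg poleOrder canDeg)
open Pool.Agent.H84.SM (cr dt dp)
open Pool.Agent.H3.SF (Itg Bb BB Hm eu grd hes Sfc Crd Cnn Crf Prm nv)
open Pool.Agent.H84.SF Pool.Agent.H3.S2 Pool.Agent.H84.S2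

theorem hcomp_mul {R τ : Type} [CommRing R] {F : MvPolynomial τ R} {w : ℕ} (hF : F.IsHomogeneous w)
    (h : MvPolynomial τ R) (d : ℕ) : homogeneousComponent d (F * h) =
      if w ≤ d then F * homogeneousComponent (d - w) h else 0 := by
  conv_lhs => rw [← sum_homogeneousComponent h, Finset.mul_sum, map_sum]
  have h1 : ∀ i, homogeneousComponent d (F * homogeneousComponent i h) =
      if d = w + i then F * homogeneousComponent i h else 0 := fun i =>
    homogeneousComponent_of_mem (hF.mul (homogeneousComponent_isHomogeneous i h))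
  simp only [h1]
  split_ifs with hd
  · rw [Finset.sum_eq_single (d - w)]
    · rw [if_pos (by omega)]
    · intro i _ hi
      rw [if_neg (by omega)]
    · intro hi
      rw [Finset.mem_range, not_lt] at hi
      rw [homogeneousComponent_eq_zero _ _ (by omega)]
      simp
  · refine Finset.sum_eq_zero fun i _ => ?_
    rw [if_neg (by omega)]

/-- the quotient of two forms is a form -/
theorem quot_hom {R τ : Type} [CommRing R] {A S : MvPolynomial τ R} {a w : ℕ}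
    (hA : A.IsHomogeneous a) (hS : S.IsHomogeneous w) (hA0 : A ≠ 0) (hd : S ∣ A) :
    w ≤ a ∧ ∃ Q : MvPolynomial τ R, Q.IsHomogeneous (a - w) ∧ A = S * Q := by
  obtain ⟨Q, hQ⟩ := hd
  have h1 : homogeneousComponent a A = A := homogeneousComponent_eq_self hA
  rw [hQ, hcomp_mul hS] at h1
  by_cases hwa : w ≤ a
  · rw [if_pos hwa] at h1
    exact ⟨hwa, homogeneousComponent (a - w) Q, homogeneousComponent_isHomogeneous _ _,
      by rw [hQ, h1]⟩
  · rw [if_neg hwa] at h1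
    rw [hQ] at hA0
    exact absurd h1.symm hA0

section

variable {k F σ K : Type} [Field k] [Field F] [Algebra k F] [Field K] [Algebra k K]

/-- the values of the elements of `k[X]` at the curve -/
theorem val_z {X : σ → F} {u : Fin 3 → F} (hX : ∀ i, Itg k u (X i)) (φ : Bb k u →ₐ[k] K)
    (z : σ → K) (hz : z = fun i => φ ⟨X i, hX i⟩) (f : MvPolynomial σ k) (b : Bb k u)
    (hb : (b : F) = aeval X f) : φ b = aeval z f := by
  have h1 : ((aeval (fun i => (⟨X i, hX i⟩ : Bb k u)) f : Bb k u) : F) = aeval X f := by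
    have h3 : (Bb k u).val (aeval (fun i => (⟨X i, hX i⟩ : Bb k u)) f) = aeval X f := by
      rw [← AlgHom.comp_apply, MvPolynomial.comp_aeval]
      rfl
    exact h3
  have h4 : b = aeval (fun i => (⟨X i, hX i⟩ : Bb k u)) f := Subtype.ext (hb.trans h1.symm)
  rw [h4, ← AlgHom.comp_apply, MvPolynomial.comp_aeval, hz]

end

theorem pf_LSN (hNFR : T_NFR) (hLFT : T_LFT) (hDSH : T_DSH) (hLCN : T_LCN) (hHMK : T_HMK)
    (hEQS : T_EQS) (hPRX : T_PRX) (hSNZ : T_SNZ) (hVFO : T_VFO) (hJB2 : T_JB2) : T_LSN := by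
  intro k F σ _ _ _ _ _ _ _ X u dd J j0 m G GP sg S hY hm hCr hGP hval α A b hC hSA s hs hc hGs0
    hNod
  obtain ⟨hN, L0, L1, L2, cX, cY, ε, x1, y1, Gs, dX, dY, hL2, hFr, hGs, hGs3⟩ :=
    hNFR k F σ X u dd J j0 hY m GP hGP s hs hc hGs0 hNod
  have hLne : aeval X L0 ≠ 0 := fun h => hFr.v0 (hc.pt L0 h)
  obtain ⟨p, A1, b1, hL⟩ := hLFT k F σ X u dd J j0 hY s hc L0 hFr.l0 hFr.v0 m G α A b hC
  choose U hUh hU using hY.ulin
  have hbU : ∀ P : MvPolynomial (Fin 3) k, aeval X (aeval U P) = aeval u P := by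
    intro P
    have h1 : ((aeval X : MvPolynomial σ k →ₐ[k] F).comp (aeval U)) = aeval u := by
      refine MvPolynomial.algHom_ext fun i => ?_
      rw [AlgHom.comp_apply, aeval_X, aeval_X, hU]
    rw [← h1]
    rfl
  have hUP : ∀ (e : ℕ) (P : MvPolynomial (Fin 3) k), P.IsHomogeneous e →
      (aeval U P : MvPolynomial σ k).IsHomogeneous e := by
    intro e P hP
    have h1 := hP.aeval U hUh
    rw [one_mul] at h1
    exact h1
  have hbe : ∀ P : MvPolynomial (Fin 3) k, eval s (aeval U P) = eval (fun l => eval s (U l)) P := by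
    intro P
    exact eval₂Hom_bind₁ (RingHom.id k) s U P
  have hmk : ∀ (e : ℕ) (P : MvPolynomial (Fin 3) k), P.IsHomogeneous e →
      ∃ q : Os X s, (q : F) * aeval X L0 ^ e = aeval u P := by
    intro e P hP
    obtain ⟨q, hq⟩ := Pool.Agent.H70.SF.mkO X s L0 hFr.l0 hFr.v0 hLne e (aeval U P) (hUP e P hP)
    exact ⟨q, by rw [hq, hbU]⟩
  -- the derivation
  obtain ⟨δ, hδ⟩ : ∃ δ : Derivation k (Os X s) (Os X s), ∀ h, δ h = dY Gs * dX h - dX Gs * dY h :=
    ⟨dY Gs • dX - dX Gs • dY, fun h => rfl⟩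
  obtain ⟨c, hcd⟩ : ∃ c : Fin 3 → F, ∀ l, c l =
    ((dY Gs : Os X s) : F) * cX l - ((dX Gs : Os X s) : F) * cY l := ⟨_, fun l => rfl⟩
  have hsum : ∀ a : F, (∑ l, c l • dd l) a = ((dY Gs : Os X s) : F) * (∑ l, cX l • dd l) a -
      ((dX Gs : Os X s) : F) * (∑ l, cY l • dd l) a := by
    intro a
    rw [Pool.Agent.H70.SF.dsum, Pool.Agent.H70.SF.dsum, Pool.Agent.H70.SF.dsum, Finset.mul_sum,
      Finset.mul_sum, ← Finset.sum_sub_distrib]
    refine Finset.sum_congr rfl fun l _ => ?_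
    rw [hcd]
    ring
  have hδc : ∀ h : Os X s, ((δ h : Os X s) : F) = (∑ l, c l • dd l) (h : F) := by
    intro h
    rw [hsum, hδ, ← hFr.dX, ← hFr.dG]
    rfl
  have hδL : (∑ l, c l • dd l) (aeval X L0) = 0 := by
    rw [hsum, hFr.der.x0, hFr.der.g0, mul_zero, mul_zero, sub_zero]
  have hGs' : (Gs : F) * aeval X L0 ^ m = G := hGs.trans hval
  have hδG : (∑ l, c l • dd l) G = 0 := by
    rw [← hGs', Derivation.leibniz, Derivation.leibniz_pow, hδL, ← hδc, hδ]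
    have h1 : dY Gs * dX Gs - dX Gs * dY Gs = 0 := by ring
    rw [h1]
    simp
  obtain ⟨js, Ss, hjs, hSs, hdvd⟩ := hDSH k F σ X u dd J j0 m G sg S hY hm hCr s hs hc L0 hFr.l0
    hFr.v0 c δ hδc hδL hδG Gs hGs' α A b hC p A1 b1 hL
  -- divisibility
  obtain ⟨qA, hqA⟩ := hmk α A hC.hA
  obtain ⟨hsα, A2, hA2, hAA⟩ := quot_hom hC.hA hCr.Sh hC.ne hSA
  obtain ⟨q2, hq2⟩ := hmk (α - sg) A2 hA2
  have hA1 : A1 = js * qA := by
    apply Subtype.ext
    apply mul_right_cancel₀ (pow_ne_zero (α + j0) hLne)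
    rw [hL.hA, ← hjs, ← hqA]
    change _ = (js : F) * (qA : F) * _
    ring
  have hA1' : A1 = Ss * (js * q2) := by
    apply Subtype.ext
    apply mul_right_cancel₀ (pow_ne_zero (α + j0) hLne)
    have h1 : aeval X L0 ^ (α + j0) = aeval X L0 ^ sg * aeval X L0 ^ j0 *
        aeval X L0 ^ (α - sg) := by
      rw [← pow_add, ← pow_add]
      congr 1
      omega
    have h2 : aeval u A = aeval u S * aeval u A2 := by rw [hAA, map_mul]
    rw [hL.hA, h2, ← hjs, ← hSs, ← hq2, h1]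
    change _ = (Ss : F) * ((js : F) * (q2 : F)) * _
    ring
  have hE : js ^ 9 * Ss ^ 3 ∣ A1 ^ 12 := by
    have h1 : js ∣ A1 := ⟨qA, hA1⟩
    have h2 : Ss ∣ A1 := ⟨js * q2, hA1'⟩
    have h3 := mul_dvd_mul (pow_dvd_pow_of_dvd h1 9) (pow_dvd_pow_of_dvd h2 3)
    rw [← pow_add] at h3
    exact h3
  have := hN
  obtain ⟨C, hCC⟩ := hLCN k (Os X s) ε x1 y1 dX dY hFr.frm Gs hGs3 p A1 b1 (js ^ 9 * Ss ^ 3) 12
    hL.hh hE (fun δ' hδ' => by
      have h1 : δ' = δ := Derivation.ext fun h => by rw [hδ', hδ]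
      rw [h1]
      exact hdvd)
  have hε1 : ε A1 = 0 := by
    have h1 := hSNZ k F σ X u dd J j0 m GP sg S hY (by rw [hval]; exact hCr) s hs hc hNod U hU
    rw [map_mul, ← hbe, ← hbe] at h1
    have h2 : ∀ (e : ℕ) (P : MvPolynomial (Fin 3) k) (q : Os X s), P.IsHomogeneous e →
        (q : F) * aeval X L0 ^ e = aeval u P → eval s (aeval U P) = 0 → ε q = 0 := by
      intro e P q hP hq h0
      have h3 := hFr.eps q e (aeval U P) (L0 ^ e) ⟨hUP e P hP, by simpa using hFr.l0.pow e,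
        by rw [map_pow, hq, hbU]⟩
      rw [h0, map_pow] at h3
      exact (mul_eq_zero.1 h3).resolve_right (pow_ne_zero e hFr.v0)
    rw [hA1', map_mul, map_mul]
    rcases mul_eq_zero.1 h1 with h3 | h3
    · rw [h2 j0 J js hY.Jh hjs h3, zero_mul, mul_zero]
    · rw [h2 sg S Ss hCr.Sh hSs h3, zero_mul]
  refine ⟨C, ?_⟩
  intro K _ _ _ htr φ x g Sp hcr hP hA0 D hD0 B hV hEq v c' hc0 hvc hcen
  obtain ⟨z, hz⟩ : ∃ z : σ → K, z = fun i => φ ⟨X i, hY.Xint i⟩ := ⟨_, rfl⟩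
  have hzX : ∀ (i : σ) (b : Bb k u), (b : F) = X i → φ b = z i := by
    intro i b hb
    rw [hz]
    exact congrArg φ (Subtype.ext hb)
  have hval' := val_z hY.Xint φ z hz
  have hBb : ∀ f : MvPolynomial σ k, ∃ b : Bb k u, (b : F) = aeval X f := by
    intro f
    exact ⟨⟨_, aeval_itg X u hY.Xint f⟩, rfl⟩
  have hz0 : ∀ f : MvPolynomial σ k, aeval X f = 0 → aeval z f = 0 := by
    intro f hf
    rw [← hval' f 0 (by rw [hf]; rfl), map_zero]
  have hcen' : ∀ i, ge v 1 (c' * z i - algebraMap k K (s i)) := by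
    intro i
    rw [hz]
    exact hcen i _ rfl
  obtain ⟨y, hy1, hy2, hy3⟩ := hHMK k F σ K X s hc z hz0 v c' hc0 hcen'
  have hH : HmK X s z ε v y := ⟨hy1, hy2, hy3 ε hFr.eps⟩
  have hzL : aeval z L0 ≠ 0 := by
    have h1 := (Pool.Agent.H68.SF.hmk_unit v (fun i => c' * z i) s hcen' hFr.v0).1
    rw [Pool.Agent.H68.SF.hmk_scale z c' hFr.l0, pow_one] at h1
    exact right_ne_zero_of_mul h1
  have heq := hEQS k F σ K X u dd J j0 hY s hc L0 hFr.l0 hFr.v0 m G α A b hC p A1 b1 hL φ x z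
    hcr.cx hzX hzL hcr.Jx ε v y hH D B hV hEq
  have hgen := hPRX k F σ K X u dd J j0 hY s hc L0 hFr.l0 hFr.v0 φ x z hcr.cx hzX hcr.one hzL
    hcr.Jx hP ε v y hH
  have hzU : ∀ l, aeval z (U l) = x l := by
    intro l
    obtain ⟨b, hb⟩ := hBb (U l)
    rw [← hval' (U l) b hb]
    exact hcr.cx l b (hb.trans (hU l))
  have hbz : ∀ P : MvPolynomial (Fin 3) k, aeval z (aeval U P) = aeval x P := by
    intro P
    have h1 : ((aeval z : MvPolynomial σ k →ₐ[k] K).comp (aeval U)) = aeval x := by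
      refine MvPolynomial.algHom_ext fun i => ?_
      rw [AlgHom.comp_apply, aeval_X, aeval_X, hzU]
    rw [← h1]
    rfl
  obtain ⟨hj1, hj2⟩ := hJB2 k F σ K htr X u dd J j0 hY 1 L2 le_rfl hL2 s hc L0 L1 cX cY ε x1 y1
    dX dY hFr α A b hC.hA p A1 b1 hL φ x hcr.cx hcr.one hcr.Jx hA0 v c' hc0 hvc hcen z hzX y hH
  have hgz : aeval z GP = g := by
    obtain ⟨b, hb⟩ := hBb GP
    rw [← hval' GP b hb]
    exact hcr.gx b (hb.trans hval)
  obtain ⟨hG1, hG2⟩ := hVFO k F σ K X s ε v x z y hH c' hc0 hvc hcen' L0 hFr.l0 hFr.v0 m GP Gs hGP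
    hGs (by rw [hgz]; exact hcr.ne)
  rw [hgz] at hG2
  obtain ⟨hqA1, hqA2⟩ := hVFO k F σ K X s ε v x z y hH c' hc0 hvc hcen' L0 hFr.l0 hFr.v0 α
    (aeval U A) qA (hUP α A hC.hA) (by rw [hqA, hbU]) (by rw [hbz]; exact hA0)
  rw [hbz] at hqA2
  obtain ⟨hjs1, hjs2⟩ := hVFO k F σ K X s ε v x z y hH c' hc0 hvc hcen' L0 hFr.l0 hFr.v0 j0
    (aeval U J) js (hUP j0 J hY.Jh) (by rw [hjs, hbU]) (by rw [hbz]; exact hcr.Jx)
  rw [hbz] at hjs2
  have hyA : y A1 = y js * y qA := by rw [hA1, map_mul]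
  have hyA0 : y A1 ≠ 0 := by
    rw [hyA]
    exact mul_ne_zero hjs1 hqA1
  have hordA : v.ord (y A1) = v.ord (y js) + v.ord (y qA) := by
    rw [hyA]
    exact v.ord_mul _ _ hjs1 hqA1
  have hor := hCC K htr D hD0 y v hy2 (hy3 ε hFr.eps) hG1 hj1 hgen heq A1 hε1 hyA0
  have hnA : 0 ≤ v.ord (y qA) := (hy2 qA).resolve_left hqA1
  have hnJ : 0 ≤ v.ord (y js) := (hy2 js).resolve_left hjs1
  rw [hordA, hG2, hqA2, hjs2] at hor
  rw [hqA2] at hnA
  rw [hjs2] at hnJ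
  have hC0 : (0 : ℤ) ≤ C := Int.natCast_nonneg _
  have hj2' : v.ord (y (A1 * dt p (fun i => dX (p i)) (fun i => dY (p i)))) ≤
      nv v x α (aeval x A) + 4 * nv v x j0 (aeval x J) := hj2
  rcases hor with h | h
  · linarith
  · linarith

end Pool.Agent.H11.S2
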