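import Pool.Agent.H84.S2.Tg

/-!
# MP_70ba79_ag, row PRL: a prime ideal which contains `G` and an element not divisible by `G`
-/

set_option autoImplicit false

namespace Pool.Agent.H11.S2

open MvPolynomial SC
open Pool.Agent.H27.LV (ge deg poleOrder canDeg)
open Pool.Agent.H84.SM (cr dt dp)
open Pool.Agent.H3.SF (Itg Bb BB Hm eu grd hes Sfc Crd Cnn Crf Prm nv)
open Pool.Agent.H84.SF Pool.Agent.H3.S2 Pool.Agent.H84.S2
open Pool.Agent.H92.OD (HS cf sg uu Lat geO IsO exists_IsO cf_sg_mul)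

/-- an element of order `a` at the point of the curve is `X ^ a` times a unit modulo `G` -/
theorem prl_aux {k O : Type} [Field k] [CommRing O] [Algebra k O] (ε : O →ₐ[k] k) (X G : O)
    (dX dG : Derivation k O O) (hF : Frm ε X G dX dG) (c : O →ₐ[k] HS k) (hc : Pnt X G c)
    (hcG : c G = 0) (hcf : ∀ h, cf (c h) 0 = ε h) :
    ∀ (a : ℕ) (h : O), IsO (c h) a → ∃ w t, h = X ^ a * w + G * t ∧ ε w ≠ 0 := by
  intro a
  induction a with
  | zero =>
    intro h hh
    refine ⟨h, 0, by ring, ?_⟩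
    rw [← hcf]
    have h1 := hh.1
    rw [Nat.cast_zero] at h1
    exact h1
  | succ a ih =>
    intro h hh
    have h1 : ε h = 0 := by
      rw [← hcf]
      refine hh.2 0 ?_
      positivity
    obtain ⟨p, q, hpq⟩ := (hF.max h).1 h1
    have h2 : c h = sg 1 1 * c p := by
      rw [hpq, map_add, map_mul, map_mul, hcG, mul_zero, add_zero, hc.eqX, mul_comm]
      rfl
    have h3 : ∀ s : ℚ, cf (c h) s = cf (c p) (s - 1) := by
      intro s
      rw [h2, cf_sg_mul, one_mul]
    have h4 : IsO (c p) a := by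
      constructor
      · have h5 := hh.1
        rw [h3] at h5
        have h6 : ((a + 1 : ℕ) : ℚ) - 1 = (a : ℚ) := by push_cast; ring
        rw [h6] at h5
        exact h5
      · intro s hs
        have h5 := hh.2 (s + 1) (by push_cast; linarith)
        rw [h3] at h5
        have h6 : s + 1 - 1 = s := by ring
        rw [h6] at h5
        exact h5
    obtain ⟨w, t, hw, hw0⟩ := ih p h4
    refine ⟨w, t * X + q, ?_, hw0⟩
    rw [hpq, hw]
    ring

theorem pf_PRL (hTAY : T_TAY) (hTAK : T_TAK) (_hAPX : T_APX) : T_PRL := by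
  intro k O _ _ _ _ _ _ ε X G dX dG hF P hP hG h hh hGh t ht
  obtain ⟨c, hc, hcG, hcL⟩ := hTAY k O ε X G dX dG hF
  have hne : c h ≠ 0 := fun h0 => hGh (hTAK k O ε X G dX dG hF c hc hcG h h0)
  obtain ⟨r, hr⟩ := exists_IsO hne
  obtain ⟨m, hm⟩ := (hcL h).1 r hr.1
  rw [Nat.cast_one, mul_one] at hm
  have hr0 : 0 ≤ r := by
    by_contra hlt
    exact hr.1 (hc.int h r (not_le.1 hlt))
  have hm0 : 0 ≤ m := by
    rw [hm] at hr0
    exact_mod_cast hr0
  obtain ⟨a, ha⟩ := Int.eq_ofNat_of_zero_le hm0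
  have hra : r = (a : ℚ) := by
    rw [hm, ha]
    rfl
  rw [hra] at hr
  obtain ⟨w, s, hw, hw0⟩ := prl_aux ε X G dX dG hF c hc hcG (fun h => (hcL h).2) a h hr
  have h1 : X ^ a * w ∈ P := by
    have h2 : X ^ a * w = h - G * s := by rw [hw]; ring
    rw [h2]
    exact P.sub_mem hh (P.mul_mem_right _ hG)
  have h3 : X ∈ P := by
    have hu := hF.unit w hw0
    have h4 : X ^ a ∈ P := by
      rcases hP.mem_or_mem h1 with h5 | h5
      · exact h5
      · exact absurd (Ideal.eq_top_of_isUnit_mem P h5 hu) hP.ne_top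
    exact hP.mem_of_pow_mem a h4
  obtain ⟨p, q, hpq⟩ := (hF.max t).1 ht
  rw [hpq]
  exact P.add_mem (P.mul_mem_left _ h3) (P.mul_mem_left _ hG)

end Pool.Agent.H11.S2
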